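import Pool.Agent.W705.BorrGroup

set_option autoImplicit false

/-!
# Order actions of punctured torus bundles of negative trace: the core argument

`X` is a complete linear order, `x y x' y' m t t1` are order automorphisms, `m` conjugates `x, y` to
the inverses of `x', y'`. The points of `X` are sorted by the directions in which `x, y` and `x', y'`
move them. The map `m` exchanges opposite directions.
-/

namespace Pool.Agent.TH335.LS

open Pool.Agent.W705.Borr

section core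
variable {X : Type*} [CompleteLinearOrder X]

/-- The relations and the sign conditions. -/
structure Sys (x y x' y' m t t1 : X ≃o X) : Prop where
  rx : ∀ r, x' (m (x r)) = m r
  ry : ∀ r, y' (m (y r)) = m r
  pp : ∀ r, r ≤ x r → r ≤ y r → r ≤ x' r ∧ r ≤ y' r
  nn : ∀ r, x r ≤ r → y r ≤ r → x' r ≤ r ∧ y' r ≤ r
  pn : ∀ r, r ≤ x' r → y' r ≤ r → r ≤ x r ∧ y r ≤ r
  np : ∀ r, x' r ≤ r → r ≤ y' r → x r ≤ r ∧ r ≤ y r
  ht : ∀ r, y' (t r) = x' (m r)
  ht1 : ∀ r s, y' s = m r → t1 r = x' s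
  up : ∀ r, ¬ (r < t r ∧ r < t1 r)
  down : ∀ r, ¬ (t r < r ∧ t1 r < r)

variable {x y x' y' m t t1 : X ≃o X}

theorem Sys.dual (h : Sys x y x' y' m t t1) :
    Sys (X := Xᵒᵈ) x.dual y.dual x'.dual y'.dual m.dual t.dual t1.dual :=
  ⟨h.rx, h.ry, h.nn, h.pp, h.np, h.pn, h.ht, h.ht1, h.down, h.up⟩

theorem Sys.mixed_le (h : Sys x y x' y' m t t1) {r : X} (hx : r ≤ x r) (hy : y r ≤ r) :
    r ≤ m r ∧ x (m r) ≤ m r ∧ m r ≤ y (m r) := by
  have h1 : x' (m r) ≤ m r := by
    conv_rhs => rw [← h.rx r]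
    exact x'.monotone (m.monotone hx)
  have h2 : m r ≤ y' (m r) := by
    conv_lhs => rw [← h.ry r]
    exact y'.monotone (m.monotone hy)
  refine ⟨?_, h.np _ h1 h2⟩
  by_contra hcon
  rw [not_le] at hcon
  have h3 : t r ≤ m r := by
    rw [← y'.le_iff_le, h.ht]
    exact h1.trans h2
  have h4 : t1 r ≤ m r := by
    have e : y' (y'.symm (m r)) = m r := y'.apply_symm_apply _
    rw [h.ht1 r _ e]
    refine le_trans (x'.monotone ?_) h1
    rw [← y'.le_iff_le, e]
    exact h2
  exact h.down r ⟨lt_of_le_of_lt h3 hcon, lt_of_le_of_lt h4 hcon⟩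

theorem Sys.mixed_ge (h : Sys x y x' y' m t t1) {r : X} (hx : x r ≤ r) (hy : r ≤ y r) :
    m r ≤ r ∧ m r ≤ x (m r) ∧ y (m r) ≤ m r :=
  Sys.mixed_le (X := Xᵒᵈ) h.dual (r := r) hx hy

theorem Sys.mixed (h : Sys x y x' y' m t t1) {r : X} (hx : r ≤ x r) (hy : y r ≤ r) :
    x r = r ∧ y r = r ∧ m r = r := by
  obtain ⟨h1, h2, h3⟩ := h.mixed_le hx hy
  have h4 := (h.mixed_ge h2 h3).1
  have h5 : m r ≤ m (m r) := m.monotone h1
  have h6 : m r = r := m.injective (le_antisymm h4 h5)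
  rw [h6] at h2 h3
  exact ⟨le_antisymm h2 hx, le_antisymm hy h3, h6⟩

theorem Sys.mixed' (h : Sys x y x' y' m t t1) {r : X} (hx : x r ≤ r) (hy : r ≤ y r) :
    x r = r ∧ y r = r ∧ m r = r :=
  Sys.mixed (X := Xᵒᵈ) h.dual (r := r) hx hy

theorem Sys.fixx (h : Sys x y x' y' m t t1) {r : X} (hx : x r = r) : y r = r ∧ m r = r := by
  rcases le_total (y r) r with h1 | h1
  · exact (h.mixed hx.ge h1).2
  · exact (h.mixed' hx.le h1).2

theorem Sys.same (h : Sys x y x' y' m t t1) {s : X} (hx : s < x s) (hy : s < y s) : False := by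
  set A : Set X := {f | f ≤ s ∧ x f = f} with hA
  set B : Set X := {f | s ≤ f ∧ x f = f} with hB
  set α := sSup A with hα
  set β := sInf B with hβ
  have xα : x α = α := by
    apply le_antisymm
    · rw [hα, x.map_sSup]
      refine iSup₂_le fun v hv => ?_
      rw [hv.2]; exact le_sSup hv
    · refine sSup_le fun v hv => ?_
      rw [← hv.2]; exact (x.le_iff_le).mpr (le_sSup hv)
  have xβ : x β = β := by
    apply le_antisymm
    · refine le_sInf fun v hv => ?_
      rw [← hv.2]; exact (x.le_iff_le).mpr (sInf_le hv)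
    · rw [hβ, x.map_sInf]
      refine le_iInf₂ fun v hv => ?_
      rw [hv.2]; exact sInf_le hv
  have hsx : x s ≠ s := ne_of_gt hx
  have hαs : α < s := by
    refine lt_of_le_of_ne (sSup_le fun v hv => hv.1) ?_
    intro e; rw [e] at xα; exact hsx xα
  have hsβ : s < β := by
    refine lt_of_le_of_ne (le_sInf fun v hv => hv.1) ?_
    intro e; rw [← e] at xβ; exact hsx xβ
  have mα := (h.fixx xα).2
  have mβ := (h.fixx xβ).2
  have h1 : α < m s := by rw [← mα]; exact (m.lt_iff_lt).mpr hαs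
  have h2 : m s < β := by rw [← mβ]; exact (m.lt_iff_lt).mpr hsβ
  have h3 : x' (m s) < m s := by
    conv_rhs => rw [← h.rx s]
    exact (x'.lt_iff_lt).mpr ((m.lt_iff_lt).mpr hx)
  have h4 : x (m s) < m s := by
    by_contra hcon
    rw [not_lt] at hcon
    rcases le_total (m s) (y (m s)) with h5 | h5
    · exact absurd (h.pp _ hcon h5).1 (not_le.mpr h3)
    · obtain ⟨e1, e2, -⟩ := h.mixed hcon h5
      exact absurd (h.pp _ e1.ge e2.ge).1 (not_le.mpr h3)
  rcases le_total (m s) s with h5 | h5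
  · obtain ⟨f, f1, f2, f3⟩ := ivt x h5 h4.le hx
    exact absurd (le_sSup (show f ∈ A from ⟨f2.le, f3⟩)) (not_le.mpr (lt_of_lt_of_le h1 f1))
  · obtain ⟨f, f1, f2, f3⟩ := ivt' x h5 h4.le hx
    exact absurd (sInf_le (show f ∈ B from ⟨f1.le, f3⟩)) (not_le.mpr (lt_of_le_of_lt f2 h2))

theorem Sys.fixy (h : Sys x y x' y' m t t1) {r : X} (hy : y r = r) : x r = r := by
  rcases le_total (x r) r with h1 | h1
  · exact (h.mixed' h1 hy.ge).1
  · exact (h.mixed h1 hy.le).1

theorem Sys.not_up (h : Sys x y x' y' m t t1) (s : X) : ¬ s < x s := by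
  intro hx
  rcases lt_trichotomy (y s) s with h1 | h1 | h1
  · exact absurd (h.mixed hx.le h1.le).1 (ne_of_gt hx)
  · exact absurd (h.fixy h1) (ne_of_gt hx)
  · exact h.same hx h1

/-- All of `x`, `y`, `m` act trivially. -/
theorem Sys.trivial (h : Sys x y x' y' m t t1) (s : X) : x s = s ∧ y s = s ∧ m s = s := by
  have h1 : x s = s := by
    apply le_antisymm
    · exact not_lt.mp (h.not_up s)
    · exact not_lt.mp (Sys.not_up (X := Xᵒᵈ) h.dual s)
  exact ⟨h1, h.fixx h1⟩

end core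

end Pool.Agent.TH335.LS
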