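import Pool.Agent.TH335.LS.Core

set_option autoImplicit false

/-!
# The maximum principle on checkerboard graphs of alternating diagrams, at a point of an ordered set
-/

namespace Pool.Agent.TH335.LS

open Pool.Agent.W705.Borr

/-- An action of a group by order automorphisms of a complete linear order. -/
structure Act (H X : Type*) [Group H] [CompleteLinearOrder X] where
  f : H → X ≃o X
  one : ∀ r, f 1 r = r
  mul : ∀ g h r, f (g * h) r = f g (f h r)

section
variable {H X : Type*} [Group H] [CompleteLinearOrder X]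

/-- The same action on the reversed order. -/
def Act.dual (ρ : Act H X) : Act H Xᵒᵈ where
  f g := (ρ.f g).dual
  one r := ρ.one r
  mul g h r := ρ.mul g h r

variable (ρ : Act H X)

theorem Act.inv_self (g : H) (r : X) : ρ.f g⁻¹ (ρ.f g r) = r := by
  rw [← ρ.mul, inv_mul_cancel, ρ.one]

theorem Act.self_inv (g : H) (r : X) : ρ.f g (ρ.f g⁻¹ r) = r := by
  rw [← ρ.mul, mul_inv_cancel, ρ.one]

/-- `g r ≤ h r` in terms of `g⁻¹ h`. -/
theorem Act.le_inv_mul (g h : H) (r : X) : r ≤ ρ.f (g⁻¹ * h) r ↔ ρ.f g r ≤ ρ.f h r := by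
  rw [ρ.mul, ← (ρ.f g).le_iff_le, ρ.self_inv]

theorem Act.inv_mul_le (g h : H) (r : X) : ρ.f (g⁻¹ * h) r ≤ r ↔ ρ.f h r ≤ ρ.f g r := by
  rw [ρ.mul, ← (ρ.f g).le_iff_le, ρ.self_inv]

theorem Act.inv_mul_eq (g h : H) (r : X) : ρ.f (g⁻¹ * h) r = r ↔ ρ.f h r = ρ.f g r := by
  rw [ρ.mul, ← (ρ.f g).injective.eq_iff, ρ.self_inv]

theorem Act.inv_le (g : H) (r : X) : ρ.f g⁻¹ r ≤ r ↔ r ≤ ρ.f g r := by
  rw [← (ρ.f g).le_iff_le, ρ.self_inv]

theorem Act.le_inv (g : H) (r : X) : r ≤ ρ.f g⁻¹ r ↔ ρ.f g r ≤ r := by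
  rw [← (ρ.f g).le_iff_le, ρ.self_inv]

theorem Act.pow_le {g : H} {r : X} (h : ρ.f g r ≤ r) (n : ℕ) : ρ.f (g ^ n) r ≤ r := by
  induction n with
  | zero => rw [pow_zero, ρ.one]
  | succ n ih => rw [pow_succ', ρ.mul]; exact ((ρ.f g).monotone ih).trans h

theorem Act.pow_lt {g : H} {r : X} (h : ρ.f g r < r) {n : ℕ} (hn : 1 ≤ n) :
    ρ.f (g ^ n) r < r := by
  obtain ⟨k, rfl⟩ := Nat.exists_eq_add_of_le' hn
  rw [pow_succ', ρ.mul]
  exact lt_of_le_of_lt ((ρ.f g).monotone (ρ.pow_le h.le k)) h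

theorem Act.le_pow {g : H} {r : X} (h : r ≤ ρ.f g r) (n : ℕ) : r ≤ ρ.f (g ^ n) r :=
  Act.pow_le (X := Xᵒᵈ) ρ.dual (r := r) h n

theorem Act.lt_pow {g : H} {r : X} (h : r < ρ.f g r) {n : ℕ} (hn : 1 ≤ n) :
    r < ρ.f (g ^ n) r :=
  Act.pow_lt (X := Xᵒᵈ) ρ.dual (r := r) h hn

/-- `u ^ q = v ^ p` with positive exponents: `u` and `v` move every point in the same direction. -/
theorem Act.dir_le {u v : H} {p q : ℕ} (hq : 1 ≤ q) (huv : u ^ q = v ^ p) {r : X}
    (h : ρ.f v r ≤ r) : ρ.f u r ≤ r := by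
  by_contra hcon
  rw [not_le] at hcon
  have h1 := ρ.lt_pow hcon hq
  rw [huv] at h1
  exact absurd (ρ.pow_le h p) (not_le.mpr h1)

theorem Act.dir_ge {u v : H} {p q : ℕ} (hq : 1 ≤ q) (huv : u ^ q = v ^ p) {r : X}
    (h : r ≤ ρ.f v r) : r ≤ ρ.f u r :=
  Act.dir_le (X := Xᵒᵈ) ρ.dual hq huv (r := r) h

theorem Act.list_le (l : List H) {r : X} (hl : ∀ g ∈ l, ρ.f g r ≤ r) : ρ.f l.prod r ≤ r := by
  induction l with
  | nil => rw [List.prod_nil, ρ.one]
  | cons g l ih =>
    rw [List.prod_cons, ρ.mul]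
    exact ((ρ.f g).monotone (ih fun g' hg' => hl g' (List.mem_cons_of_mem _ hg'))).trans
      (hl g List.mem_cons_self)

theorem Act.list_eq (l : List H) {r : X} (hl : ∀ g ∈ l, ρ.f g r ≤ r)
    (hr : r ≤ ρ.f l.prod r) : ∀ g ∈ l, ρ.f g r = r := by
  induction l with
  | nil => simp
  | cons g l ih =>
    rw [List.prod_cons, ρ.mul] at hr
    have h1 := hl g List.mem_cons_self
    have h2 := ρ.list_le l fun g' hg' => hl g' (List.mem_cons_of_mem _ hg')
    have h3 : ρ.f g r = r := le_antisymm h1 (hr.trans ((ρ.f g).monotone h2))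
    have h4 : r ≤ ρ.f l.prod r := by
      rw [← (ρ.f g).le_iff_le, h3]; exact hr
    intro g' hg'
    rcases List.mem_cons.mp hg' with rfl | h5
    · exact h3
    · exact ih (fun g'' h => hl g'' (List.mem_cons_of_mem _ h)) h4 g' h5

section net
variable {V K : Type*} {star : V → List K} {opp : K → V} {u : K → H} {val : V → X}

/-- The data of a network at the point `r`: potentials `val`, currents `u`. -/
structure Net (ρ : Act H X) (star : V → List K) (opp : K → V) (u : K → H) (val : V → X)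
    (r : X) : Prop where
  le : ∀ n, ∀ k ∈ star n, val (opp k) ≤ val n → ρ.f (u k) r ≤ r
  ge : ∀ n, ∀ k ∈ star n, val n ≤ val (opp k) → r ≤ ρ.f (u k) r
  eq : ∀ n, ∀ k ∈ star n, ρ.f (u k) r = r → val (opp k) = val n

theorem Net.dual {r : X} (h : Net ρ star opp u val r) :
    Net (X := Xᵒᵈ) ρ.dual star opp u val r :=
  ⟨h.ge, h.le, h.eq⟩

/-- Local maximum principle. -/
theorem Net.max_eq {r : X} (h : Net ρ star opp u val r) {n : V}
    (hmax : ∀ k ∈ star n, val (opp k) ≤ val n) (hprod : r ≤ ρ.f ((star n).map u).prod r) :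
    ∀ k ∈ star n, val (opp k) = val n := by
  intro k hk
  refine h.eq n k hk (ρ.list_eq ((star n).map u) ?_ hprod (u k) (List.mem_map_of_mem hk))
  intro g hg
  obtain ⟨k', hk', rfl⟩ := List.mem_map.mp hg
  exact h.le n k' hk' (hmax k' hk')

/-- If the potential of the ground `g` is not larger than the one of the port `p` and the current
at `p` does not flow into the network, then the potential of `g` is not larger than the one of the
other port `q`. -/
theorem Net.port [Finite V] {r : X} (h : Net ρ star opp u val r) {g p q : V}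
    (inner : ∀ n, n ≠ g → n ≠ p → n ≠ q → ((star n).map u).prod = 1)
    (conn : ∀ n, Relation.ReflTransGen (fun a b => ∃ k ∈ star a, opp k = b) n g)
    (link : Relation.ReflTransGen (fun a b => (∃ k ∈ star a, opp k = b) ∧ b ≠ g) p q)
    (hp : r ≤ ρ.f ((star p).map u).prod r) (hgp : val g ≤ val p) : val g ≤ val q := by
  by_contra hcon
  rw [not_le] at hcon
  obtain ⟨M, hM⟩ : ∃ M, ∀ n, val n ≤ val M := by
    have : Nonempty V := ⟨g⟩
    exact Finite.exists_max val
  have hqM : val q < val M := lt_of_lt_of_le hcon (hM g)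
  have step : ∀ a, (a ≠ g ∧ a ≠ q ∨ a = p) → val a = val M →
      ∀ k ∈ star a, val (opp k) = val M := by
    intro a ha haM
    have hmax : ∀ k ∈ star a, val (opp k) ≤ val a := fun k _ => haM ▸ hM _
    by_cases hap : a = p
    · subst hap
      intro k hk
      rw [h.max_eq ρ hmax hp k hk, haM]
    · have ha' : a ≠ g ∧ a ≠ q := by
        rcases ha with ha | ha
        · exact ha
        · exact absurd ha hap
      intro k hk
      rw [h.max_eq ρ hmax (by rw [inner a ha'.1 hap ha'.2, ρ.one]) k hk, haM]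
  have hpM : val p = val M := by
    have : ∀ n, val n = val M → val p = val M := by
      intro n
      induction conn n using Relation.ReflTransGen.head_induction_on with
      | refl => intro hg; exact le_antisymm (hM p) (hg ▸ hgp)
      | @head a b hab _ ih =>
        intro ha
        by_cases hag : a = g
        · subst hag; exact le_antisymm (hM p) (ha ▸ hgp)
        by_cases hap : a = p
        · subst hap; exact ha
        have haq : a ≠ q := by rintro rfl; exact absurd ha (ne_of_lt hqM)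
        obtain ⟨k, hk, rfl⟩ := hab
        exact ih (step a (Or.inl ⟨hag, haq⟩) ha k hk)
    exact this M rfl
  have hq : ∀ n, Relation.ReflTransGen (fun a b => (∃ k ∈ star a, opp k = b) ∧ b ≠ g) p n →
      val n = val M ∧ (n ≠ g ∨ n = p) := by
    intro n hn
    induction hn with
    | refl => exact ⟨hpM, Or.inr rfl⟩
    | @tail a b _ hab ih =>
      obtain ⟨⟨k, hk, rfl⟩, hbg⟩ := hab
      have haq : a ≠ q := by rintro rfl; exact absurd ih.1 (ne_of_lt hqM)
      refine ⟨step a ?_ ih.1 k hk, Or.inl hbg⟩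
      rcases ih.2 with h1 | h1
      · exact Or.inl ⟨h1, haq⟩
      · exact Or.inr h1
  exact absurd (hq q link).1 (ne_of_lt hqM)

/-- Global maximum principle. -/
theorem Net.le_ground [Finite V] {r : X} (h : Net ρ star opp u val r) {g p q : V}
    (inner : ∀ n, n ≠ g → n ≠ p → n ≠ q → ((star n).map u).prod = 1)
    (conn : ∀ n, Relation.ReflTransGen (fun a b => ∃ k ∈ star a, opp k = b) n g)
    (hp : val p ≤ val g) (hq : val q ≤ val g) (n : V) : val n ≤ val g := by
  obtain ⟨M, hM⟩ : ∃ M, ∀ n, val n ≤ val M := by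
    have : Nonempty V := ⟨g⟩
    exact Finite.exists_max val
  refine (hM n).trans ?_
  have : ∀ n, val n = val M → val M ≤ val g := by
    intro n
    induction conn n using Relation.ReflTransGen.head_induction_on with
    | refl => intro hg; exact hg ▸ le_rfl
    | @head a b hab _ ih =>
      intro ha
      by_cases hag : a = g
      · subst hag; exact ha ▸ le_rfl
      by_cases hap : a = p
      · subst hap; exact ha ▸ hp
      by_cases haq : a = q
      · subst haq; exact ha ▸ hq
      obtain ⟨k, hk, rfl⟩ := hab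
      refine ih ?_
      rw [h.max_eq ρ (fun k _ => ha ▸ hM _) (by rw [inner a hag hap haq, ρ.one]) k hk, ha]
  exact this M rfl

end net

end

end Pool.Agent.TH335.LS
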